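import Mathlib

set_option autoImplicit false

namespace Pool.Agent.H.MP_9a43b6_co

universe u v

theorem select {T : Type u} [Lattice T] {ι : Type v} (j : T → ι →₀ ℕ)
    (hsub : ∀ x y, j (x ⊓ y) + j (x ⊔ y) ≤ j x + j y)
    (htie : ∀ x y, y ≤ x → j y = j x → y = x) :
    ∃ φ : (S : Set T) → S.Nonempty → T, (∀ S hS, φ S hS ∈ S) ∧
      ∀ S hS S' hS', (∀ x ∈ S, ∀ x' ∈ S', x ⊓ x' ∈ S ∧ x ⊔ x' ∈ S') → φ S hS ≤ φ S' hS' := by
  obtain ⟨lo, wf⟩ := exists_wellFoundedLT (α := ι)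
  have W : WellFounded (InvImage (· < ·) (fun x : T => toColex (j x))) :=
    InvImage.wf _ (wellFounded_lt (α := Colex (ι →₀ ℕ)))
  refine ⟨fun S hS => W.min S hS, fun S hS => W.min_mem S hS, ?_⟩
  intro S hS S' hS' h
  obtain ⟨x, hx⟩ : ∃ x, x = W.min S hS := ⟨_, rfl⟩
  obtain ⟨y, hy⟩ : ∃ y, y = W.min S' hS' := ⟨_, rfl⟩
  show W.min S hS ≤ W.min S' hS'
  have hxS : x ∈ S := hx ▸ W.min_mem S hS
  have hyS : y ∈ S' := hy ▸ W.min_mem S' hS'
  obtain ⟨h1, h2⟩ := h x hxS y hyS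
  have a1 : toColex (j x) ≤ toColex (j (x ⊓ y)) := by
    have := W.not_lt_min S h1
    rw [← hx] at this
    exact not_lt.mp this
  have a2 : toColex (j y) ≤ toColex (j (x ⊔ y)) := by
    have := W.not_lt_min S' h2
    rw [← hy] at this
    exact not_lt.mp this
  have a3 : toColex (j (x ⊓ y)) + toColex (j (x ⊔ y)) ≤ toColex (j x) + toColex (j y) :=
    Finsupp.toColex_monotone (hsub x y)
  have a4 : toColex (j (x ⊓ y)) ≤ toColex (j x) :=
    le_of_add_le_add_right (a3.trans (add_le_add_right a2 _))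
  have a5 : j (x ⊓ y) = j x := toColex.injective (le_antisymm a4 a1)
  rw [← hx, ← hy]
  exact inf_eq_left.mp (htie x (x ⊓ y) inf_le_left a5)

variable {T : Type u} [BooleanAlgebra T]

structure IsPt (h : T → Prop) : Prop where
  inf : ∀ x y, h (x ⊓ y) ↔ h x ∧ h y
  compl : ∀ x, h xᶜ ↔ ¬ h x

lemma IsPt.sup {h : T → Prop} (H : IsPt h) (x y : T) : h (x ⊔ y) ↔ h x ∨ h y := by
  have : x ⊔ y = (xᶜ ⊓ yᶜ)ᶜ := by simp
  rw [this, H.compl, H.inf, H.compl, H.compl]; tauto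

lemma IsPt.mono {h : T → Prop} (H : IsPt h) {x y : T} (hxy : x ≤ y) (hx : h x) : h y := by
  have : x = x ⊓ y := (inf_eq_left.mpr hxy).symm
  rw [this, H.inf] at hx
  exact hx.2

lemma IsPt.bot {h : T → Prop} (H : IsPt h) : ¬ h ⊥ := by
  have : (⊥ : T) = ⊥ ⊓ ⊥ᶜ := by simp
  rw [this, H.inf, H.compl]; tauto

lemma IsPt.top {h : T → Prop} (H : IsPt h) : h ⊤ := by
  have : (⊤ : T) = ⊥ᶜ := by simp
  rw [this, H.compl]; exact H.bot

lemma exists_pt (a : T) (D : Set T) (hD : ∀ d ∈ D, ∀ e ∈ D, d ≤ e ∨ e ≤ d)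
    (hne : ∀ d ∈ D, ¬ a ≤ d) (ha : a ≠ ⊥) : ∃ h : T → Prop, IsPt h ∧ h a ∧ ∀ d ∈ D, ¬ h d := by
  let I : Order.Ideal T :=
    { carrier := {x | x = ⊥ ∨ ∃ d ∈ D, x ≤ d}
      lower' := by
        rintro x y hyx (rfl | ⟨d, hd, hx⟩)
        · exact Or.inl (le_bot_iff.mp hyx)
        · exact Or.inr ⟨d, hd, hyx.trans hx⟩
      nonempty' := ⟨⊥, Or.inl rfl⟩
      directed' := by
        rintro x (rfl | ⟨d, hd, hx⟩) y hy
        · exact ⟨y, hy, bot_le, le_rfl⟩
        · rcases hy with rfl | ⟨e, he, hy⟩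
          · exact ⟨d, Or.inr ⟨d, hd, le_rfl⟩, hx, bot_le⟩
          · rcases hD d hd e he with h | h
            · exact ⟨e, Or.inr ⟨e, he, le_rfl⟩, hx.trans h, hy⟩
            · exact ⟨d, Or.inr ⟨d, hd, le_rfl⟩, hx, hy.trans h⟩ }
  have hdis : Disjoint ((Order.PFilter.principal a : Order.PFilter T) : Set T) (I : Set T) := by
    rw [Set.disjoint_left]
    intro x hx hx'
    have hax : a ≤ x := hx
    rcases hx' with rfl | ⟨d, hd, hxd⟩
    · exact ha (le_bot_iff.mp hax)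
    · exact hne d hd (hax.trans hxd)
  obtain ⟨J, hJ, hIJ, hJd⟩ := DistribLattice.prime_ideal_of_disjoint_filter_ideal hdis
  have haJ : a ∉ J := fun h => Set.disjoint_left.mp hJd (show a ≤ a from le_rfl) h
  refine ⟨fun x => x ∉ J, ⟨fun x y => ?_, fun x => ?_⟩, haJ, fun d hd h => ?_⟩
  · constructor
    · intro h
      exact ⟨fun hx => h (J.lower inf_le_left hx), fun hy => h (J.lower inf_le_right hy)⟩
    · rintro ⟨hx, hy⟩ h
      exact (hJ.mem_or_mem h).elim hx hy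
  · constructor
    · intro h hx
      exact h (hJ.compl_mem_of_notMem hx)
    · intro h hx
      have h1 : x ∈ J := not_not.mp h
      have h2 : x ⊔ xᶜ ∈ J := J.sup_mem h1 hx
      exact haJ (J.lower (show a ≤ x ⊔ xᶜ by simp) h2)
  · exact h (hIJ (show d ∈ I from Or.inr ⟨d, hd, le_rfl⟩))

lemma exists_jump (C : Set T) (hC : IsChain (· ≤ ·) C) (c : T) :
    ∃ p q : T → Prop, c ∈ C → c ≠ ⊥ → c ≠ ⊤ → IsPt p ∧ IsPt q ∧
      ∀ d ∈ C, (p d ↔ c ≤ d) ∧ (q d ↔ c < d) := by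
  by_cases hc : c ∈ C ∧ c ≠ ⊥ ∧ c ≠ ⊤
  · obtain ⟨hc, hb, ht⟩ := hc
    obtain ⟨p, hp, hpc, hpd⟩ := exists_pt c {d | d ∈ C ∧ d < c}
      (fun d hd e he => hC.total hd.1 he.1) (fun d hd => hd.2.not_ge) hb
    obtain ⟨q, hq, hqc, hqd⟩ := exists_pt cᶜ {e | eᶜ ∈ C ∧ c < eᶜ}
      (fun d hd e he => (hC.total hd.1 he.1).symm.imp compl_le_compl_iff_le.mp
        compl_le_compl_iff_le.mp)
      (fun d hd h => hd.2.not_ge (by simpa using compl_le_compl h)) (by simpa using ht)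
    refine ⟨p, q, fun _ _ _ => ⟨hp, hq, fun d hd => ⟨⟨fun h => ?_, fun h => hp.mono h hpc⟩,
      ⟨fun h => ?_, fun h => ?_⟩⟩⟩⟩
    · rcases hC.total hc hd with h1 | h1
      · exact h1
      · rcases h1.eq_or_lt with h2 | h2
        · exact h2.ge
        · exact absurd h (hpd d ⟨hd, h2⟩)
    · rcases hC.total hc hd with h1 | h1
      · rcases h1.eq_or_lt with h2 | h2
        · exact absurd (h2 ▸ h) ((hq.compl c).mp hqc)
        · exact h2
      · exact absurd (hq.mono h1 h) ((hq.compl c).mp hqc)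
    · have := hqd dᶜ ⟨by simpa using hd, by simpa using h⟩
      rw [hq.compl] at this
      exact not_not.mp this
  · exact ⟨fun _ => True, fun _ => True, fun a b c => absurd ⟨a, b, c⟩ hc⟩

lemma exists_fin (C : Set T) {x : T} (hx : x ∈ BooleanSubalgebra.closure C) :
    ∃ F : Finset T, (∀ c ∈ F, c ∈ C) ∧
      ∀ h h' : T → Prop, IsPt h → IsPt h' → (∀ c ∈ F, h c ↔ h' c) → (h x ↔ h' x) := by
  classical
  induction hx using BooleanSubalgebra.closure_bot_sup_induction with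
  | mem x hx => exact ⟨{x}, by simpa using hx, fun h h' _ _ H => H x (by simp)⟩
  | bot => exact ⟨∅, by simp, fun h h' H H' _ => iff_of_false H.bot H'.bot⟩
  | sup x _ y _ ihx ihy =>
    obtain ⟨F, hF, HF⟩ := ihx
    obtain ⟨G, hG, HG⟩ := ihy
    refine ⟨F ∪ G, fun c hc => (Finset.mem_union.mp hc).elim (hF c) (hG c),
      fun h h' H H' e => ?_⟩
    rw [H.sup, H'.sup, HF h h' H H' fun c hc => e c (Finset.mem_union_left _ hc),
      HG h h' H H' fun c hc => e c (Finset.mem_union_right _ hc)]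
  | compl x _ ih =>
    obtain ⟨F, hF, HF⟩ := ih
    exact ⟨F, hF, fun h h' H H' e => by rw [H.compl, H'.compl, HF h h' H H' e]⟩

lemma no_jump (C : Set T) (hC : IsChain (· ≤ ·) C) (p q : T → T → Prop)
    (hpq : ∀ c, c ∈ C → c ≠ ⊥ → c ≠ ⊤ → IsPt (p c) ∧ IsPt (q c) ∧
      ∀ d ∈ C, (p c d ↔ c ≤ d) ∧ (q c d ↔ c < d))
    {z : T} (hz : z ∈ BooleanSubalgebra.closure C)
    (hj : ∀ c, c ∈ C → c ≠ ⊥ → c ≠ ⊤ → (p c z ↔ q c z))
    (h h' : T → Prop) (H : IsPt h) (H' : IsPt h') : h z ↔ h' z := by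
  classical
  obtain ⟨F, hF, HF⟩ := exists_fin C hz
  have key : ∀ n, ∀ h : T → Prop, IsPt h → (F.filter fun c => c ≠ ⊤ ∧ h c).card = n →
      ∃ h0 : T → Prop, IsPt h0 ∧ (∀ c ∈ F, c ≠ ⊤ → ¬ h0 c) ∧ (h z ↔ h0 z) := by
    intro n
    induction n with
    | zero =>
      intro h H hn
      refine ⟨h, H, fun c hc ht hh => ?_, Iff.rfl⟩
      have : c ∈ F.filter fun c => c ≠ ⊤ ∧ h c := Finset.mem_filter.mpr ⟨hc, ht, hh⟩
      rw [Finset.card_eq_zero.mp hn] at this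
      simp at this
    | succ n ih =>
      intro h H hn
      obtain ⟨c, hc⟩ := (F.filter fun c => c ≠ ⊤ ∧ h c).exists_minimal
        (Finset.card_pos.mp (by omega))
      have hcm := hc.prop
      obtain ⟨hcF, hct, hhc⟩ := Finset.mem_filter.mp hcm
      have hcb : c ≠ ⊥ := fun e => H.bot (e ▸ hhc)
      obtain ⟨Hp, Hq, Hd⟩ := hpq c (hF c hcF) hcb hct
      have e1 : ∀ d ∈ F, h d ↔ c ≤ d := by
        intro d hd
        refine ⟨fun hh => ?_, fun hh => H.mono hh hhc⟩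
        by_cases hdt : d = ⊤
        · exact hdt ▸ le_top
        · rcases hC.total (hF c hcF) (hF d hd) with h1 | h1
          · exact h1
          · exact hc.le_of_le (Finset.mem_filter.mpr ⟨hd, hdt, hh⟩) h1
      have e2 : h z ↔ p c z := HF _ _ H Hp fun d hd => by rw [e1 d hd, (Hd d (hF d hd)).1]
      have e3 : (F.filter fun d => d ≠ ⊤ ∧ q c d) = (F.filter fun c => c ≠ ⊤ ∧ h c).erase c := by
        ext d
        simp only [Finset.mem_filter, Finset.mem_erase]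
        constructor
        · rintro ⟨hd, ht, hq⟩
          have := (Hd d (hF d hd)).2.mp hq
          exact ⟨this.ne', hd, ht, (e1 d hd).mpr this.le⟩
        · rintro ⟨hne, hd, ht, hh⟩
          exact ⟨hd, ht, (Hd d (hF d hd)).2.mpr (lt_of_le_of_ne ((e1 d hd).mp hh) hne.symm)⟩
      obtain ⟨h0, H0, a1, a2⟩ := ih (q c) Hq (by rw [e3, Finset.card_erase_of_mem hcm, hn]; rfl)
      exact ⟨h0, H0, a1, e2.trans ((hj c (hF c hcF) hcb hct).trans a2)⟩
  obtain ⟨h0, H0, a1, a2⟩ := key _ h H rfl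
  obtain ⟨h1, H1, b1, b2⟩ := key _ h' H' rfl
  rw [a2, b2]
  refine HF _ _ H0 H1 fun c hc => ?_
  by_cases ht : c = ⊤
  · subst ht; exact iff_of_true H0.top H1.top
  · exact iff_of_false (a1 c hc ht) (b1 c hc ht)

theorem main (C : Set T) (hC : IsChain (· ≤ ·) C) (hgen : BooleanSubalgebra.closure C = ⊤) :
    ∃ φ : (S : Set T) → S.Nonempty → T, (∀ S hS, φ S hS ∈ S) ∧
      ∀ S hS S' hS', (∀ x ∈ S, ∀ x' ∈ S', x ⊓ x' ∈ S ∧ x ⊔ x' ∈ S') → φ S hS ≤ φ S' hS' := by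
  classical
  rcases subsingleton_or_nontrivial T with hT | hT
  · exact ⟨fun S hS => hS.some, fun S hS => hS.some_mem,
      fun _ _ _ _ _ => (Subsingleton.elim _ _).le⟩
  obtain ⟨h0, H0, -, -⟩ := exists_pt (⊤ : T) ∅ (by simp) (by simp) top_ne_bot
  choose p q hpq using exists_jump C hC
  have hmem : ∀ x : T, x ∈ BooleanSubalgebra.closure C := fun x => by rw [hgen]; trivial
  obtain ⟨P, hP0, hP1⟩ : ∃ P : T → Option T → Prop, (∀ x, P x none ↔ h0 x) ∧
      ∀ x c, P x (some c) ↔ (c ∈ C ∧ c ≠ ⊥ ∧ c ≠ ⊤) ∧ ¬ (p c x ↔ q c x) :=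
    ⟨fun x i => i.elim (h0 x) fun c => (c ∈ C ∧ c ≠ ⊥ ∧ c ≠ ⊤) ∧ ¬ (p c x ↔ q c x),
      fun _ => Iff.rfl, fun _ _ => Iff.rfl⟩
  have hfin : ∀ x, (Function.support fun i => if P x i then 1 else 0).Finite := by
    intro x
    obtain ⟨F, hF, HF⟩ := exists_fin C (hmem x)
    refine ((F.finite_toSet.image some).insert none).subset fun i hi => ?_
    have hi' : P x i := by
      by_contra hn
      simp [hn] at hi
    cases i with
    | none => exact Or.inl rfl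
    | some c =>
      refine Or.inr ⟨c, ?_, rfl⟩
      obtain ⟨⟨a, b, d⟩, hne⟩ := (hP1 x c).mp hi'
      obtain ⟨Hp, Hq, Hd⟩ := hpq c a b d
      by_contra hc
      refine hne (HF _ _ Hp Hq fun e he => ?_)
      rw [(Hd e (hF e he)).1, (Hd e (hF e he)).2]
      exact ⟨fun h => lt_of_le_of_ne h fun h' => hc (h' ▸ he), le_of_lt⟩
  refine select (fun x => Finsupp.ofSupportFinite _ (hfin x)) (fun x y => ?_) (fun x y hyx e => ?_)
  · intro i
    simp only [Finsupp.coe_add, Pi.add_apply, Finsupp.ofSupportFinite_coe]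
    cases i with
    | none =>
      simp only [hP0, H0.inf, H0.sup]
      by_cases a : h0 x <;> by_cases b : h0 y <;> simp [a, b]
    | some c =>
      by_cases hc : c ∈ C ∧ c ≠ ⊥ ∧ c ≠ ⊤
      · obtain ⟨Hp, Hq, -⟩ := hpq c hc.1 hc.2.1 hc.2.2
        simp only [hP1, Hp.inf, Hp.sup, Hq.inf, Hq.sup]
        by_cases a : p c x <;> by_cases b : p c y <;> by_cases a' : q c x <;>
          by_cases b' : q c y <;> simp [a, b, a', b', hc]
      · simp only [hP1, hc, false_and, if_false]; rfl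
  · have e' : ∀ i, P y i ↔ P x i := by
      intro i
      have := DFunLike.congr_fun e i
      simp only [Finsupp.ofSupportFinite_coe] at this
      by_cases a : P y i <;> by_cases b : P x i <;> simp_all
    refine le_antisymm hyx ?_
    rw [← sdiff_eq_bot_iff, sdiff_eq]
    by_contra hz
    obtain ⟨h, H, hh, -⟩ := exists_pt (x ⊓ yᶜ) ∅ (by simp) (by simp) hz
    have := no_jump C hC p q hpq (hmem (x ⊓ yᶜ)) (fun c a b d => by
      obtain ⟨Hp, Hq, -⟩ := hpq c a b d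
      have e1 := e' (some c)
      rw [hP1, hP1] at e1
      have m1 : p c y → p c x := Hp.mono hyx
      have m2 : q c y → q c x := Hq.mono hyx
      rw [Hp.inf, Hq.inf, Hp.compl, Hq.compl]
      tauto) h h0 H H0
    have e0 := e' none
    rw [hP0, hP0] at e0
    have h1 := this.mp hh
    rw [H0.inf, H0.compl] at h1
    tauto

end Pool.Agent.H.MP_9a43b6_co
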